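import Pool.Agent.H20.SM.TZ
import Pool.Agent.H36.CRG.VG
import Pool.Agent.H38.CRZ.G1
import Pool.Agent.H35.CRG.OP

/-!
# A cofinal family of Galois extensions: row OPz, the second moment opened
-/

set_option autoImplicit false

open NumberField NumberField.InfinitePlace Complex Filter Topology MeasureTheory

namespace Pool.Agent.H37.SM

open Pool.Agent.H28.RC Pool.Agent.H25.HK Pool.Agent.H37.CV Pool.Agent.H65.CRZ Pool.Agent.H65.CRG
open Pool.Agent.H20.SM
open Pool.Agent.H59.CV (NB one_le_nm nm_mul idS_ne nS_pos reparam XX YY mul_ne inner_sum)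
open Pool.Agent.H35.CRG (coef FF summable_FF summable_cc)

section
variable {K : Type} [Field K] [NumberField K]

theorem opz_sup {m : Ideal (𝓞 K)} {M : ℝ} {S : Finset (PrI K)} (hS : S ∈ DMc m M) :
    idS S ⊔ m = ⊤ := by
  classical
  unfold idS
  refine Ideal.prod_sup_eq_top fun P hPS => ?_
  unfold DMc at hS
  rw [Finset.mem_filter] at hS
  have hmax : P.1.IsMaximal := P.2.1.isMaximal P.2.2
  by_contra hne
  have h2 : P.1 = P.1 ⊔ m := hmax.eq_of_le hne le_sup_left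
  have h3 : m ≤ P.1 := by
    rw [h2]
    exact le_sup_right
  exact hS.2 P hPS h3

theorem opz_zero {m : Ideal (𝓞 K)} {ψ : Ideal (𝓞 K) → ℂ} (h : PC m ψ) {M : ℝ}
    {S : Finset (PrI K)} (hS : S ∈ DM K M) (hS' : S ∉ DMc m M) : ψ (idS S) = 0 := by
  classical
  have h1 : ∃ P ∈ S, m ≤ P.1 := by
    by_contra h1
    push Not at h1
    refine hS' ?_
    unfold DMc
    rw [Finset.mem_filter]
    exact ⟨hS, h1⟩
  obtain ⟨P, hPS, hmP⟩ := h1
  refine h.zero _ fun h2 => ?_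
  have h3 : idS S ≤ P.1 := by
    unfold idS
    exact Ideal.le_of_dvd (Finset.dvd_prod_of_mem _ hPS)
  have h4 : idS S ⊔ m ≤ P.1 := sup_le h3 hmP
  rw [h2] at h4
  exact (P.2.1.isMaximal P.2.2).ne_top (top_le_iff.1 h4)

theorem opz_open {m : Ideal (𝓞 K)} {ψ : Ideal (𝓞 K) → ℂ} (h : PC m ψ) (Q M : ℝ) (s₁ s₂ : ℂ)
    (c₁ c₂ : Finset (PrI K) → ℂ) :
    A2n Q s₁ s₂ ψ * (pol M c₁ ψ * pol M c₂ (fun I => (starRingEnd ℂ) (ψ I))) =
      ∑ S ∈ DMc m M, ∑ T ∈ DMc m M,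
        c₁ S * c₂ T * ∑' p : NI K × NI K, FF Q s₁ s₂ p * Pool.Agent.H59.CV.cc ψ (idS S) (idS T) p := by
  have hsub : DMc m M ⊆ DM K M := by
    classical
    unfold DMc
    exact Finset.filter_subset _ _
  have e1 : pol M c₁ ψ = ∑ S ∈ DMc m M, c₁ S * ψ (idS S) := by
    unfold pol
    refine (Finset.sum_subset hsub fun S hS hS' => ?_).symm
    rw [opz_zero h hS hS', mul_zero]
  have e2 : pol M c₂ (fun I => (starRingEnd ℂ) (ψ I)) =
      ∑ T ∈ DMc m M, c₂ T * (starRingEnd ℂ) (ψ (idS T)) := by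
    unfold pol
    refine (Finset.sum_subset hsub fun S hS hS' => ?_).symm
    show c₂ S * (starRingEnd ℂ) (ψ (idS S)) = 0
    rw [opz_zero h hS hS', map_zero, mul_zero]
  rw [e1, e2, Finset.sum_mul_sum, Finset.mul_sum]
  refine Finset.sum_congr rfl fun S _ => ?_
  rw [Finset.mul_sum]
  refine Finset.sum_congr rfl fun T _ => ?_
  have h4 : A2n Q s₁ s₂ ψ * (ψ (idS S) * (starRingEnd ℂ) (ψ (idS T))) =
      ∑' p : NI K × NI K, FF Q s₁ s₂ p * Pool.Agent.H59.CV.cc ψ (idS S) (idS T) p := by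
    unfold A2n
    rw [← tsum_mul_right]
    refine tsum_congr fun p => ?_
    unfold Pool.Agent.H35.CRG.FF Pool.Agent.H59.CV.cc
    rw [h.mul, h.mul, map_mul]
    ring
  rw [← h4]
  ring

end

/-- row OPz -/
theorem pf_OPz : T_OPz := by
  classical
  have hVG := Pool.Agent.H36.CRG.pf_VG Pool.Agent.H38.CRZ.pf_G1
  intro K _ _ _ m d Q M s₁ s₂ c₁ c₂ hm hmd hQ hM hs1 hs1' hs2 hs2'
  obtain ⟨C, hC⟩ := (Pool.Agent.H86.CV.pf_DV K).2
  have hNB : NB K C := hC
  obtain ⟨hfin, hnc, hor⟩ := Pool.Agent.H37.CV.pf_OR K m d hm hmd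
  -- the parametrisation
  have hφ : ∀ S T : Finset (PrI K), ∃ φ : YY m d → NI K × NI K, S ∈ DMc m M → T ∈ DMc m M →
      Function.Injective φ ∧ Set.range φ = XX m d (idS S) (idS T) ∧
      ∀ y, c₁ S * c₂ T * FF Q s₁ s₂ (φ y) =
        ((nm y.1.1.1 : ℝ) : ℂ) ^ (-s₁) * ((nm y.1.1.2 : ℝ) : ℂ) ^ (-s₂) *
          (c₁ S * c₂ T * (((nS np T / gg np (pf y.1.1.1) (pf y.1.1.2) S T : ℝ) : ℂ) ^ (-s₁) *
            ((nS np S / gg np (pf y.1.1.1) (pf y.1.1.2) S T : ℝ) : ℂ) ^ (-s₂)) *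
            (((nm y.2.1 : ℝ) : ℂ) ^ (-(s₁ + s₂)) *
              Vn (nrComplexPlaces K) s₁ s₂ (nm y.2.1 ^ 2 /
                (Q * gg np (pf y.1.1.1) (pf y.1.1.2) S T ^ 2 /
                (nS np S * nS np T * (nm y.1.1.1 * nm y.1.1.2)))))) := by
    intro S T
    by_cases hST : S ∈ DMc m M ∧ T ∈ DMc m M
    · obtain ⟨hS, hT⟩ := hST
      have h1 : ∀ p : CP m d, ∃ g u v : Ideal (𝓞 K), g ≠ ⊥ ∧ idS S * p.1.2 = g * u ∧
          idS T * p.1.1 = g * v ∧ u ⊔ v = ⊤ ∧ nm g = gg np (pf p.1.1) (pf p.1.2) S T := fun p =>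
        ((Pool.Agent.H3.CV.pf_GC K S T).2 p.1.1 p.1.2 p.2.1 p.2.2.1 p.2.2.2.1).2
      choose G U V hG hU hV hUV hg using h1
      obtain ⟨φ, h2, h3, h4⟩ := reparam (idS_ne S) (idS_ne T) (opz_sup hS) (opz_sup hT)
        G U V hG hU hV hUV
      refine ⟨φ, fun _ _ => ⟨h2, h3, fun y => ?_⟩⟩
      obtain ⟨p, t⟩ := y
      have hI := one_le_nm p.2.1
      have hJ := one_le_nm p.2.2.1
      have ht := one_le_nm t.2.1
      have hgp := one_le_nm (hG p)
      have hS' : nm (idS S) = nS np S := (Pool.Agent.H3.CV.pf_GC K S T).1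
      have hT' : nm (idS T) = nS np T := (Pool.Agent.H3.CV.pf_GC K T S).1
      have hSp := nS_pos S
      have hTp := nS_pos T
      have hVn : V p ≠ ⊥ := by
        intro h
        have h1 := hV p
        rw [h, Ideal.mul_bot] at h1
        exact mul_ne (idS_ne T) p.2.1 h1
      have hUn : U p ≠ ⊥ := by
        intro h
        have h1 := hU p
        rw [h, Ideal.mul_bot] at h1
        exact mul_ne (idS_ne S) p.2.2.1 h1
      have hVp := one_le_nm hVn
      have hUp := one_le_nm hUn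
      have e1 : nS np S * nm p.1.2 = nm (G p) * nm (U p) := by
        rw [← hS', ← nm_mul, ← nm_mul, hU p]
      have e2 : nS np T * nm p.1.1 = nm (G p) * nm (V p) := by
        rw [← hT', ← nm_mul, ← nm_mul, hV p]
      have e3 : nm (V p) * nm (U p) * nm (G p) ^ 2 =
          nS np S * nS np T * (nm p.1.1 * nm p.1.2) := by
        calc nm (V p) * nm (U p) * nm (G p) ^ 2 =
            (nm (G p) * nm (V p)) * (nm (G p) * nm (U p)) := by ring
          _ = (nS np T * nm p.1.1) * (nS np S * nm p.1.2) := by rw [← e1, ← e2]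
          _ = _ := by ring
      have f1 : nm (φ ⟨p, t⟩).1.1 = nm (V p) * nm t.1 := by
        rw [(h4 ⟨p, t⟩).1, nm_mul]
      have f2 : nm (φ ⟨p, t⟩).2.1 = nm (U p) * nm t.1 := by
        rw [(h4 ⟨p, t⟩).2, nm_mul]
      have hc := coef (s₁ := s₁) (s₂ := s₂) (show 0 < nm p.1.1 by linarith)
        (show 0 < nm p.1.2 by linarith) (show 0 < nm (G p) by linarith) hSp hTp
        (show 0 < nm t.1 by linarith) e1 e2
      have hv : nm (V p) * nm t.1 * (nm (U p) * nm t.1) / Q = nm t.1 ^ 2 /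
          (Q * nm (G p) ^ 2 / (nS np S * nS np T * (nm p.1.1 * nm p.1.2))) := by
        rw [← e3]
        have h5 : nm (G p) ≠ 0 := by linarith
        have h6 : nm (V p) ≠ 0 := by linarith
        have h7 : nm (U p) ≠ 0 := by linarith
        field_simp
      unfold Pool.Agent.H35.CRG.FF
      simp only [f1, f2]
      rw [hv, ← hg p, hc]
      ring
    · refine ⟨fun _ => (⟨⊤, top_ne_bot⟩, ⟨⊤, top_ne_bot⟩), fun h1 h2 => absurd ⟨h1, h2⟩ hST⟩
  choose φ hφ using hφ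
  -- summability
  have hsF := summable_FF (K := K) hVG hNB hQ hs1 hs1' hs2 hs2'
  have hsum : ∀ S ∈ DMc m M, ∀ T ∈ DMc m M, Summable (fun y : YY m d => ‖FF Q s₁ s₂ (φ S T y)‖) :=
    fun S hS T hT => hsF.comp_injective (hφ S T hS hT).1
  have hDd : ∀ p : CP m d, Dz m Q M s₁ s₂ c₁ c₂ p.1.1 p.1.2 = ∑ S ∈ DMc m M, ∑ T ∈ DMc m M,
      c₁ S * c₂ T * ∑' t : {t : Ideal (𝓞 K) // t ≠ ⊥ ∧ t ⊔ m = ⊤}, FF Q s₁ s₂ (φ S T ⟨p, t⟩) := by
    intro p
    unfold Dz
    rw [Finset.mul_sum]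
    refine Finset.sum_congr rfl fun S hS => ?_
    rw [Finset.mul_sum]
    refine Finset.sum_congr rfl fun T hT => ?_
    unfold Sn
    rw [← tsum_mul_left, ← tsum_mul_left, ← tsum_mul_left]
    refine tsum_congr fun t => ?_
    exact ((hφ S T hS hT).2.2 ⟨p, t⟩).symm
  have hsDn : ∀ S ∈ DMc m M, ∀ T ∈ DMc m M, Summable (fun p : CP m d => ‖c₁ S * c₂ T *
      ∑' t : {t : Ideal (𝓞 K) // t ≠ ⊥ ∧ t ⊔ m = ⊤}, FF Q s₁ s₂ (φ S T ⟨p, t⟩)‖) := by
    intro S hS T hT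
    have h1 := (hsum S hS T hT).sigma.mul_left ‖c₁ S * c₂ T‖
    refine h1.of_nonneg_of_le (fun _ => norm_nonneg _) fun p => ?_
    rw [norm_mul]
    exact mul_le_mul_of_nonneg_left
      (norm_tsum_le_tsum_norm ((hsum S hS T hT).sigma_factor p)) (norm_nonneg _)
  refine ⟨?_, ?_⟩
  · have h1 : Summable (fun p : CP m d => ∑ S ∈ DMc m M, ∑ T ∈ DMc m M, ‖c₁ S * c₂ T *
        ∑' t : {t : Ideal (𝓞 K) // t ≠ ⊥ ∧ t ⊔ m = ⊤}, FF Q s₁ s₂ (φ S T ⟨p, t⟩)‖) :=
      summable_sum fun S hS => summable_sum fun T hT => hsDn S hS T hT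
    refine h1.of_nonneg_of_le (fun _ => norm_nonneg _) fun p => ?_
    rw [hDd p]
    exact (norm_sum_le _ _).trans (Finset.sum_le_sum fun S _ => norm_sum_le _ _)
  · -- the sum of `Dd`
    have hR : ∑' p : CP m d, Dz m Q M s₁ s₂ c₁ c₂ p.1.1 p.1.2 = ∑ S ∈ DMc m M, ∑ T ∈ DMc m M,
        c₁ S * c₂ T * ∑' y : YY m d, FF Q s₁ s₂ (φ S T y) := by
      rw [tsum_congr hDd, Summable.tsum_finsetSum
        (fun S hS => summable_sum fun T hT => (hsDn S hS T hT).of_norm)]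
      refine Finset.sum_congr rfl fun S hS => ?_
      rw [Summable.tsum_finsetSum (fun T hT => (hsDn S hS T hT).of_norm)]
      refine Finset.sum_congr rfl fun T hT => ?_
      rw [tsum_mul_left]
      congr 1
      have h1 : Summable (fun y : YY m d => FF Q s₁ s₂ (φ S T y)) := (hsum S hS T hT).of_norm
      exact (h1.tsum_sigma' fun p => h1.sigma_factor p).symm
    rw [hR, finsum_mem_eq_finite_toFinset_sum _ hfin]
    have hpc : ∀ ψ ∈ hfin.toFinset, PC m ψ := fun ψ hψ => (hfin.mem_toFinset.1 hψ).1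
    rw [Finset.sum_congr rfl fun ψ hψ => opz_open (hpc ψ hψ) Q M s₁ s₂ c₁ c₂, Finset.sum_comm,
      Finset.mul_sum]
    refine Finset.sum_congr rfl fun S hS => ?_
    rw [Finset.sum_comm, Finset.mul_sum]
    refine Finset.sum_congr rfl fun T hT => ?_
    rw [← Finset.mul_sum]
    have h1 : ∑ ψ ∈ hfin.toFinset, ∑' p : NI K × NI K, FF Q s₁ s₂ p * Pool.Agent.H59.CV.cc ψ (idS S) (idS T) p =
        nc m d * ∑' y : YY m d, FF Q s₁ s₂ (φ S T y) := by
      rw [← Summable.tsum_finsetSum (fun ψ hψ => summable_cc hVG hNB hQ hs1 hs1' hs2 hs2' (hpc ψ hψ) _ _)]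
      obtain ⟨hinj, hran, _⟩ := hφ S T hS hT
      have h2 : ∀ p : NI K × NI K, ∑ ψ ∈ hfin.toFinset, FF Q s₁ s₂ p * Pool.Agent.H59.CV.cc ψ (idS S) (idS T) p =
          Set.indicator (XX m d (idS S) (idS T)) (fun p => (nc m d : ℂ) * FF Q s₁ s₂ p) p := by
        intro p
        rw [← Finset.mul_sum]
        have h3 := inner_sum hfin hor (idS_ne S) (idS_ne T) (opz_sup hS) (opz_sup hT) p
        by_cases hp : p ∈ XX m d (idS S) (idS T)
        · rw [h3.1 hp, Set.indicator_of_mem hp]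
          ring
        · rw [h3.2 hp, Set.indicator_of_notMem hp, mul_zero]
      rw [tsum_congr h2, ← hinj.tsum_eq (f := Set.indicator (XX m d (idS S) (idS T))
        (fun p => (nc m d : ℂ) * FF Q s₁ s₂ p)) (by
          rw [hran]
          exact Set.support_indicator_subset), ← tsum_mul_left]
      refine tsum_congr fun y => ?_
      rw [Set.indicator_of_mem]
      rw [← hran]
      exact ⟨y, rfl⟩
    rw [h1]
    ring

end Pool.Agent.H37.SM
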