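import Pool.Agent.H20.SM.TZ
import Pool.Agent.H37.CV.All
import Pool.Agent.H55.SM.RSa
import Pool.Agent.H86.CRG.DT

/-!
# A cofinal family of Galois extensions: row RSz, the primes of `m` do not matter
-/

set_option autoImplicit false

open NumberField NumberField.InfinitePlace Complex Filter Topology MeasureTheory

namespace Pool.Agent.H37.SM

open Pool.Agent.H28.RC Pool.Agent.H25.HK Pool.Agent.H37.CV Pool.Agent.H96.CV Pool.Agent.H65.CRZ
  Pool.Agent.H65.CRG Pool.Agent.H20.SM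
open Pool.Agent.H86.CRG (dt_hf)
open Pool.Agent.H55.SM (RS_pairs RS_mem_pf RS_sum3)

theorem rsz_num {Q Y δ C₀ : ℝ} (hQ : 1 ≤ Q) (hY : 0 < Y) (hδ0 : 0 ≤ δ) (hδ : δ ≤ 1 / 16)
    (h : δ * Real.log Q ≤ C₀) : (Q / Y) ^ δ * min 1 (Y ^ (1 / 4 : ℝ)) ≤ Real.exp C₀ := by
  have hQ0 : 0 < Q := by linarith
  have h1 : Q ^ δ ≤ Real.exp C₀ := by
    rw [Real.rpow_def_of_pos hQ0]
    apply Real.exp_le_exp.2
    linarith
  have hQd : 0 < Q ^ δ := Real.rpow_pos_of_pos hQ0 _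
  refine le_trans ?_ h1
  rw [Real.div_rpow hQ0.le hY.le]
  have hYd : 0 < Y ^ δ := Real.rpow_pos_of_pos hY _
  rcases le_or_gt 1 Y with h2 | h2
  · have h3 : 1 ≤ Y ^ δ := Real.one_le_rpow h2 hδ0
    calc Q ^ δ / Y ^ δ * min 1 (Y ^ (1 / 4 : ℝ)) ≤ Q ^ δ * 1 :=
          mul_le_mul (div_le_self hQd.le h3) (min_le_left _ _)
            (le_min zero_le_one (Real.rpow_nonneg hY.le _)) hQd.le
      _ = Q ^ δ := mul_one _
  · have h3 : Y ^ (1 / 4 : ℝ) ≤ Y ^ δ :=
      Real.rpow_le_rpow_of_exponent_ge hY h2.le (by linarith)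
    calc Q ^ δ / Y ^ δ * min 1 (Y ^ (1 / 4 : ℝ)) ≤ Q ^ δ / Y ^ δ * Y ^ δ :=
          mul_le_mul_of_nonneg_left ((min_le_right _ _).trans h3) (by positivity)
      _ = Q ^ δ := div_mul_cancel₀ _ hYd.ne'

open scoped Classical in
/-- row RSz -/
theorem pf_RSz (hSN : T_SNz) (_hDT : T_DTz) : T_RSz := by
  intro K _ _ _ C₀ hC₀
  obtain ⟨C₁, B₁, hC₁, hB₁, hS₁⟩ := hSN K (4 * C₀) (1 / 4) (by positivity) le_rfl
  obtain ⟨C₂, -, hC₂, -⟩ := a_GU K
  refine ⟨|C₂| ^ 3 * (10 * Real.exp C₀ * C₁) + 1, B₁, 4, by positivity, hB₁,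
    fun m Q M s₁ s₂ c₁ c₂ I J hm hQ hM hs₁ hs₂ hsL₁ hsL₂ hc₁ hc₂ hI hJ hIJ hIm hJm => ?_⟩
  have hD : Disjoint (pf I) (pf J) := ((a_GC K ∅ ∅).2 I J hI hJ hIJ).1
  obtain ⟨hB1, hB2⟩ := a_CB (PrI K) np (PM K M) (pf I) (pf J) M Pool.Agent.H96.CV.two_le_np hM hD
  obtain ⟨-, hG1, -⟩ := a_CX (PrI K) np (PM K M) M Pool.Agent.H96.CV.two_le_np hM
  obtain ⟨W, hW⟩ : ∃ W : ℝ, W = (1 + |s₁.im| + |s₂.im|) ^ B₁ := ⟨_, rfl⟩
  have hW0 : 0 ≤ W := by
    rw [hW]
    have := abs_nonneg s₁.im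
    have := abs_nonneg s₂.im
    positivity
  rw [← hW]
  set L : ℝ := 1 + Real.log Q + Real.log M with hL
  have hlQ : 0 ≤ Real.log Q := Real.log_nonneg hQ
  have hlM : 0 ≤ Real.log M := Real.log_nonneg hM
  have hL1 : 1 ≤ L := by linarith
  have hQ0 : 0 < Q := by linarith
  have hM0 : 0 < M := by linarith
  have hI0 := nm_pos hI
  have hJ0 := nm_pos hJ
  have hN1 : 1 ≤ nm I * nm J := by
    have := mul_le_mul (one_le_nm hI) (one_le_nm hJ) zero_le_one hI0.le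
    linarith
  obtain ⟨N, hN⟩ : ∃ N : ℝ, N = nm I * nm J := ⟨_, rfl⟩
  rw [← hN] at hN1
  have hN0 : 0 < N := by linarith
  set w : ℝ := N ^ (-(1 / 2) : ℝ) with hw
  have hw0 : 0 ≤ w := Real.rpow_nonneg hN0.le _
  have hrc : 0 ≤ rc m := Finset.sum_nonneg fun P _ => by
    have := np_pos P
    positivity
  -- the deviation of the real parts
  set δ : ℝ := max |s₁.re - 1 / 2| |s₂.re - 1 / 2| with hδ
  have hδ0 : 0 ≤ δ := (abs_nonneg _).trans (le_max_left _ _)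
  have hδ16 : δ ≤ 1 / 16 := max_le hs₁ hs₂
  have hδL : δ * L ≤ C₀ := by
    rcases max_choice |s₁.re - 1 / 2| |s₂.re - 1 / 2| with h | h
    · rw [hδ, h]
      exact hsL₁
    · rw [hδ, h]
      exact hsL₂
  have hδQ : δ * Real.log Q ≤ C₀ := by
    refine le_trans (mul_le_mul_of_nonneg_left ?_ hδ0) hδL
    linarith
  have hr₁ : -s₁.re ≤ -(1 / 2) + δ := by
    have h1 := (abs_le.1 (le_refl |s₁.re - 1 / 2|)).1
    have h2 : |s₁.re - 1 / 2| ≤ δ := le_max_left _ _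
    linarith
  have hr₂ : -s₂.re ≤ -(1 / 2) + δ := by
    have h1 := (abs_le.1 (le_refl |s₂.re - 1 / 2|)).1
    have h2 : |s₂.re - 1 / 2| ≤ δ := le_max_right _ _
    linarith
  have hsum1 : |(s₁ + s₂).re - 1| ≤ 2 * δ := by
    have h1 : (s₁ + s₂).re - 1 = (s₁.re - 1 / 2) + (s₂.re - 1 / 2) := by
      rw [Complex.add_re]
      ring
    rw [h1]
    have h2 : |s₁.re - 1 / 2| ≤ δ := le_max_left _ _
    have h3 : |s₂.re - 1 / 2| ≤ δ := le_max_right _ _
    exact (abs_add_le _ _).trans (by linarith)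
  -- the coefficients
  set a : Finset (PrI K) → Finset (PrI K) → ℝ := fun S T =>
    gg np (pf I) (pf J) S T / (nS np S * nS np T) with ha
  set c : Finset (PrI K) → Finset (PrI K) → ℂ := fun S T =>
    ((nm I : ℝ) : ℂ) ^ (-s₁) * ((nm J : ℝ) : ℂ) ^ (-s₂) *
      (c₁ S * c₂ T * (((nS np T / gg np (pf I) (pf J) S T : ℝ) : ℂ) ^ (-s₁) *
        ((nS np S / gg np (pf I) (pf J) S T : ℝ) : ℂ) ^ (-s₂))) with hc
  set Z : Finset (PrI K) → Finset (PrI K) → ℝ := fun S T =>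
    Q * gg np (pf I) (pf J) S T ^ 2 / (nS np S * nS np T * (nm I * nm J)) with hZ
  have ha0 : ∀ S ∈ DM K M, ∀ T ∈ DM K M, 0 ≤ a S T := by
    intro S hS' T hT'
    obtain ⟨g1, -⟩ := hB1 S hS' T hT'
    have hns : 0 < nS np S * nS np T := mul_pos (nS_pos S) (nS_pos T)
    have : 0 ≤ gg np (pf I) (pf J) S T := by linarith
    rw [ha]
    positivity
  have hZp : ∀ S ∈ DM K M, ∀ T ∈ DM K M, 0 < Z S T := by
    intro S hS' T hT'
    obtain ⟨g1, -⟩ := hB1 S hS' T hT'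
    have hns : 0 < nS np S * nS np T := mul_pos (nS_pos S) (nS_pos T)
    have : 0 < gg np (pf I) (pf J) S T := by linarith
    rw [hZ]
    positivity
  have hZle : ∀ S ∈ DM K M, ∀ T ∈ DM K M, Z S T ≤ Q * M ^ 2 := by
    intro S hS' T hT'
    obtain ⟨g1, g2⟩ := hB1 S hS' T hT'
    have hns : 0 < nS np S * nS np T := mul_pos (nS_pos S) (nS_pos T)
    have e1 : Z S T = Q * (gg np (pf I) (pf J) S T ^ 2 / (nS np S * nS np T)) / N := by
      rw [hZ, hN]
      field_simp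
    rw [e1]
    refine (div_le_self (by positivity) hN1).trans ?_
    gcongr
  have hZL : ∀ S ∈ DM K M, ∀ T ∈ DM K M, 1 + max (Real.log (Z S T)) 0 ≤ 2 * L := by
    intro S hS' T hT'
    have hZpos := hZp S hS' T hT'
    have e1 : Real.log (Z S T) ≤ Real.log (Q * M ^ 2) :=
      Real.log_le_log hZpos (hZle S hS' T hT')
    rw [Real.log_mul (by positivity) (by positivity), Real.log_pow] at e1
    push_cast at e1
    have h2 : max (Real.log (Z S T)) 0 ≤ Real.log Q + 2 * Real.log M :=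
      max_le e1 (by positivity)
    rw [hL]
    linarith
  have hZc : ∀ S ∈ DM K M, ∀ T ∈ DM K M,
      |(s₁ + s₂).re - 1| * Real.log (2 + Z S T) ≤ 4 * C₀ := by
    intro S hS' T hT'
    have hZpos := hZp S hS' T hT'
    have h1 : Real.log (2 + Z S T) ≤ 2 * L := by
      have h2 : 1 ≤ Q * M ^ 2 := by
        have h3 : 1 ≤ M ^ 2 := one_le_pow₀ hM
        nlinarith
      have h3 : 2 + Z S T ≤ Real.exp 2 * (Q * M ^ 2) := by
        have h4 : (3 : ℝ) ≤ Real.exp 2 := by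
          have := Real.add_one_le_exp (2 : ℝ)
          linarith
        have h5 := hZle S hS' T hT'
        nlinarith
      have h4 := Real.log_le_log (by linarith : (0 : ℝ) < 2 + Z S T) h3
      rw [Real.log_mul (Real.exp_pos _).ne' (by positivity), Real.log_exp,
        Real.log_mul (by positivity) (by positivity), Real.log_pow] at h4
      push_cast at h4
      rw [hL]
      linarith
    have h0 : 0 ≤ Real.log (2 + Z S T) := Real.log_nonneg (by linarith)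
    calc |(s₁ + s₂).re - 1| * Real.log (2 + Z S T) ≤ 2 * δ * (2 * L) :=
          mul_le_mul hsum1 h1 h0 (by positivity)
      _ ≤ 4 * C₀ := by linarith
  -- the size of the coefficients
  have hcn : ∀ S ∈ DM K M, ∀ T ∈ DM K M, ‖c S T‖ ≤ a S T * (w * (Q / Z S T) ^ δ) := by
    intro S hS' T hT'
    obtain ⟨g1, g2⟩ := hB1 S hS' T hT'
    obtain ⟨hGS, -, hGG⟩ := a_GC K S T |>.imp id (fun h => h I J hI hJ hIJ)
    have hGT := (a_GC K T S).1
    obtain ⟨g, u, v, hg, hu, hv, -, hgn⟩ := hGG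
    rw [hc, ha, hZ]
    simp only
    rw [← hN]
    obtain ⟨G, hG⟩ : ∃ G : ℝ, G = gg np (pf I) (pf J) S T := ⟨_, rfl⟩
    rw [← hG] at g1 g2 hgn ⊢
    have hG0 : 0 < G := by linarith
    obtain ⟨a, ha⟩ : ∃ a : ℝ, a = nS np S := ⟨_, rfl⟩
    obtain ⟨b, hb⟩ : ∃ b : ℝ, b = nS np T := ⟨_, rfl⟩
    have ha1 : 1 ≤ a := by rw [ha]; exact one_le_nS S
    have hb1' : 1 ≤ b := by rw [hb]; exact one_le_nS T
    have ha0 : 0 < a := by linarith
    have hb0 : 0 < b := by linarith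
    have hmul : ∀ x y : Ideal (𝓞 K), nm (x * y) = nm x * nm y := fun x y => by
      unfold nm
      rw [map_mul, Nat.cast_mul]
    have hbot : nm (⊥ : Ideal (𝓞 K)) = 0 := by
      unfold nm
      rw [Ideal.absNorm_bot, Nat.cast_zero]
    have hu0 : u ≠ ⊥ := by
      rintro rfl
      have h2 := congrArg nm hu
      rw [hmul, hmul, hGS, ← ha, hbot, mul_zero] at h2
      exact (mul_pos ha0 hJ0).ne' h2
    have hv0 : v ≠ ⊥ := by
      rintro rfl
      have h2 := congrArg nm hv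
      rw [hmul, hmul, hGT, ← hb, hbot, mul_zero] at h2
      exact (mul_pos hb0 hI0).ne' h2
    have eu : a * nm J = G * nm u := by
      have h2 := congrArg nm hu
      rwa [hmul, hmul, hGS, hgn, ← ha] at h2
    have ev : b * nm I = G * nm v := by
      have h2 := congrArg nm hv
      rwa [hmul, hmul, hGT, hgn, ← hb] at h2
    have hu1 := one_le_nm hu0
    have hv1 := one_le_nm hv0
    have hu00 : 0 < nm u := by linarith
    have hv00 : 0 < nm v := by linarith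
    rw [← ha, ← hb]
    have hns : 0 < a * b := mul_pos ha0 hb0
    rw [norm_mul, norm_mul (c₁ S * c₂ T), norm_mul (c₁ S),
      norm_mul (((b / G : ℝ) : ℂ) ^ (-s₁)),
      norm_mul, Complex.norm_cpow_eq_rpow_re_of_pos hI0,
      Complex.norm_cpow_eq_rpow_re_of_pos hJ0,
      Complex.norm_cpow_eq_rpow_re_of_pos (by positivity : 0 < b / G),
      Complex.norm_cpow_eq_rpow_re_of_pos (by positivity : 0 < a / G), neg_re, neg_re]
    have e1 : nm v = b / G * nm I := by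
      rw [div_mul_eq_mul_div, ev]
      field_simp
    have e2 : nm u = a / G * nm J := by
      rw [div_mul_eq_mul_div, eu]
      field_simp
    have hab : ‖c₁ S‖ * ‖c₂ T‖ ≤ (a * b) ^ (-(1 / 2) : ℝ) := by
      rw [Real.mul_rpow ha0.le hb0.le]
      have k1 := hc₁ S
      have k2 := hc₂ T
      rw [← ha] at k1
      rw [← hb] at k2
      exact mul_le_mul k1 k2 (norm_nonneg _) (by positivity)
    have hv2 : (nm I) ^ (-s₁.re) * (b / G) ^ (-s₁.re) ≤ (nm v) ^ (-(1 / 2) + δ) := by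
      rw [← Real.mul_rpow hI0.le (by positivity), mul_comm (nm I), ← e1]
      exact Real.rpow_le_rpow_of_exponent_le hv1 hr₁
    have hu2 : (nm J) ^ (-s₂.re) * (a / G) ^ (-s₂.re) ≤ (nm u) ^ (-(1 / 2) + δ) := by
      rw [← Real.mul_rpow hJ0.le (by positivity), mul_comm (nm J), ← e2]
      exact Real.rpow_le_rpow_of_exponent_le hu1 hr₂
    have euv : nm v * nm u = a * b * N / G ^ 2 := by
      rw [e1, e2, hN]
      field_simp
    have hQY : Q / (Q * G ^ 2 / (a * b * N)) = a * b * N / G ^ 2 := by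
      field_simp
    have huv : (nm v) ^ (-(1 / 2) + δ) * (nm u) ^ (-(1 / 2) + δ) =
        (a * b * N / G ^ 2) ^ (-(1 / 2) : ℝ) * (a * b * N / G ^ 2) ^ δ := by
      rw [← Real.mul_rpow hv00.le hu00.le, Real.rpow_add (by positivity), euv]
    have hfin := dt_hf hns hN0 hG0
    rw [hQY]
    calc nm I ^ (-s₁.re) * nm J ^ (-s₂.re) *
          (‖c₁ S‖ * ‖c₂ T‖ * ((b / G) ^ (-s₁.re) * (a / G) ^ (-s₂.re)))
        = (‖c₁ S‖ * ‖c₂ T‖) * (((nm I) ^ (-s₁.re) * (b / G) ^ (-s₁.re)) *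
            ((nm J) ^ (-s₂.re) * (a / G) ^ (-s₂.re))) := by ring
      _ ≤ (a * b) ^ (-(1 / 2) : ℝ) * ((nm v) ^ (-(1 / 2) + δ) * (nm u) ^ (-(1 / 2) + δ)) := by
          gcongr
      _ = ((a * b) ^ (-(1 / 2) : ℝ) * (a * b * N / G ^ 2) ^ (-(1 / 2) : ℝ)) *
            (a * b * N / G ^ 2) ^ δ := by rw [huv]; ring
      _ = G / (a * b) * (w * (a * b * N / G ^ 2) ^ δ) := by
          rw [hfin, hw]
          ring
  -- the products
  have hprod : ∀ S ∈ DM K M, ∀ T ∈ DM K M, ∀ (y : ℂ) (R : ℝ), 0 ≤ R →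
      ‖y‖ ≤ C₁ * W * ((1 + max (Real.log (Z S T)) 0) * min 1 (Z S T ^ (1 / 4 : ℝ)) * R) →
      ‖c S T * y‖ ≤ w * (2 * Real.exp C₀ * C₁ * W * L) * (a S T * R) := by
    intro S hS' T hT' y R hR hy
    have h1 := hcn S hS' T hT'
    have h2 := hZL S hS' T hT'
    have h3 := hZp S hS' T hT'
    have h4 := ha0 S hS' T hT'
    have h5 := rsz_num hQ h3 hδ0 hδ16 hδQ
    have h6 : 0 ≤ 1 + max (Real.log (Z S T)) 0 := by
      have := le_max_right (Real.log (Z S T)) 0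
      linarith
    have h7 : 0 ≤ min 1 (Z S T ^ (1 / 4 : ℝ)) := le_min zero_le_one (Real.rpow_nonneg h3.le _)
    have h8 : 0 ≤ (Q / Z S T) ^ δ := Real.rpow_nonneg (by positivity) _
    rw [norm_mul]
    calc ‖c S T‖ * ‖y‖ ≤ (a S T * (w * (Q / Z S T) ^ δ)) *
          (C₁ * W * ((1 + max (Real.log (Z S T)) 0) * min 1 (Z S T ^ (1 / 4 : ℝ)) * R)) :=
          mul_le_mul h1 hy (norm_nonneg _) (by positivity)
      _ = (w * C₁ * W * a S T * R) * (1 + max (Real.log (Z S T)) 0) *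
          ((Q / Z S T) ^ δ * min 1 (Z S T ^ (1 / 4 : ℝ))) := by ring
      _ ≤ (w * C₁ * W * a S T * R) * (2 * L) * Real.exp C₀ := by gcongr
      _ = _ := by ring
  -- good pairs
  set good : Finset (PrI K) → Prop := fun S => ∀ P ∈ S, ¬ m ≤ P.1 with hgood
  set bad : Finset (PrI K) → Finset (PrI K) → ℝ := fun S T =>
    ∑ P ∈ pf m, if P ∈ S ∨ P ∈ T then a S T else 0 with hbad
  have hbad0 : ∀ S ∈ DM K M, ∀ T ∈ DM K M, 0 ≤ bad S T := by
    intro S hS' T hT'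
    refine Finset.sum_nonneg fun P _ => ?_
    by_cases h : P ∈ S ∨ P ∈ T
    · rw [if_pos h]
      exact ha0 S hS' T hT'
    · rw [if_neg h]
  have hbad1 : ∀ S ∈ DM K M, ∀ T ∈ DM K M, ¬ (good S ∧ good T) → a S T ≤ bad S T := by
    intro S hS' T hT' h
    have : ∃ P, m ≤ P.1 ∧ (P ∈ S ∨ P ∈ T) := by
      by_contra h'
      push Not at h'
      refine h ⟨fun P hP hmP => ?_, fun P hP hmP => ?_⟩
      · exact (h' P hmP).1 hP
      · exact (h' P hmP).2 hP
    obtain ⟨P, hmP, hP⟩ := this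
    have h1 := Finset.single_le_sum (s := pf m)
      (f := fun P => if P ∈ S ∨ P ∈ T then a S T else 0) (fun Q _ => by
        by_cases h : Q ∈ S ∨ Q ∈ T
        · simp only [if_pos h]
          exact ha0 S hS' T hT'
        · simp only [if_neg h]
          exact le_rfl) ((RS_mem_pf hm).2 hmP)
    simp only [if_pos hP] at h1
    exact h1
  set V : ℝ := w * (2 * Real.exp C₀ * C₁ * W * L) with hV
  have hV0 : 0 ≤ V := by positivity
  have hterm : ∀ S ∈ DM K M, ∀ T ∈ DM K M,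
      ‖(if good S ∧ good T then c S T * Sn m s₁ s₂ (Z S T) else 0) -
        c S T * Sn (K := K) ⊤ s₁ s₂ (Z S T)‖ ≤ V * rc m * a S T + V * bad S T := by
    intro S hS' T hT'
    have h3 := hZp S hS' T hT'
    have h4 := ha0 S hS' T hT'
    have h5 := hbad0 S hS' T hT'
    have hZc' := hZc S hS' T hT'
    by_cases h : good S ∧ good T
    · rw [if_pos h, ← mul_sub]
      have h7 := (hS₁ m s₁ s₂ (Z S T) hs₁ hs₂ h3 hZc').2 hm
      rw [← hW] at h7
      have h8 := hprod S hS' T hT' _ (rc m) hrc h7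
      have h9 : 0 ≤ V * bad S T := by positivity
      calc _ ≤ V * (a S T * rc m) := h8
        _ = V * rc m * a S T := by ring
        _ ≤ _ := by linarith
    · rw [if_neg h, zero_sub, norm_neg]
      have h7 := (hS₁ ⊤ s₁ s₂ (Z S T) hs₁ hs₂ h3 hZc').1
      rw [← hW] at h7
      have h8 := hprod S hS' T hT' _ 1 zero_le_one (by rw [mul_one]; exact h7)
      rw [mul_one] at h8
      have h9 : V * a S T ≤ V * bad S T :=
        mul_le_mul_of_nonneg_left (hbad1 S hS' T hT' h) hV0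
      have h10 : 0 ≤ V * rc m * a S T := by positivity
      linarith
  -- the sums
  have hDr : Dz m Q M s₁ s₂ c₁ c₂ I J = ∑ S ∈ DM K M, ∑ T ∈ DM K M,
      (if good S ∧ good T then c S T * Sn m s₁ s₂ (Z S T) else 0) := by
    unfold Dz DMc
    rw [Finset.mul_sum, Finset.sum_filter]
    refine Finset.sum_congr rfl fun S _ => ?_
    by_cases hS' : good S
    · have hS2 : ∀ P ∈ S, ¬ m ≤ P.1 := hS'
      rw [if_pos hS2, Finset.mul_sum, Finset.sum_filter]
      refine Finset.sum_congr rfl fun T _ => ?_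
      by_cases hT' : good T
      · have hT2 : ∀ P ∈ T, ¬ m ≤ P.1 := hT'
        rw [if_pos hT2, if_pos ⟨hS', hT'⟩, hc, hZ]
        ring
      · have hT2 : ¬ ∀ P ∈ T, ¬ m ≤ P.1 := hT'
        rw [if_neg hT2, if_neg fun h => hT' h.2]
    · have hS2 : ¬ ∀ P ∈ S, ¬ m ≤ P.1 := hS'
      rw [if_neg hS2]
      refine (Finset.sum_eq_zero fun T _ => ?_).symm
      rw [if_neg fun h => hS' h.1]
  have hDd : Dn (K := K) ⊤ Q M s₁ s₂ c₁ c₂ I J = ∑ S ∈ DM K M, ∑ T ∈ DM K M,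
      c S T * Sn (K := K) ⊤ s₁ s₂ (Z S T) := by
    unfold Dn
    rw [Finset.mul_sum]
    refine Finset.sum_congr rfl fun S _ => ?_
    rw [Finset.mul_sum]
    refine Finset.sum_congr rfl fun T _ => ?_
    rw [hc, hZ]
    ring
  have hdiff : Dz m Q M s₁ s₂ c₁ c₂ I J - Dn (K := K) ⊤ Q M s₁ s₂ c₁ c₂ I J =
      ∑ S ∈ DM K M, ∑ T ∈ DM K M,
        ((if good S ∧ good T then c S T * Sn m s₁ s₂ (Z S T) else 0) -
          c S T * Sn (K := K) ⊤ s₁ s₂ (Z S T)) := by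
    rw [hDr, hDd]
    simp only [Finset.sum_sub_distrib]
  -- the sum of the bad pairs
  have hcop : ∀ P ∈ pf m, P ∉ pf I ∧ P ∉ pf J := by
    intro P hP
    have h1 := (RS_mem_pf hm).1 hP
    refine ⟨fun h => ?_, fun h => ?_⟩
    · have h2 := (RS_mem_pf hI).1 h
      have h3 : I ⊔ m ≤ P.1 := sup_le h2 h1
      rw [hIm] at h3
      exact P.2.1.ne_top (top_le_iff.1 h3)
    · have h2 := (RS_mem_pf hJ).1 h
      have h3 : J ⊔ m ≤ P.1 := sup_le h2 h1
      rw [hJm] at h3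
      exact P.2.1.ne_top (top_le_iff.1 h3)
  set sa : ℝ := ∑ S ∈ DM K M, ∑ T ∈ DM K M, a S T with hsa
  have hsb : ∑ S ∈ DM K M, ∑ T ∈ DM K M, bad S T ≤ 4 * rc m * sa := by
    have e1 : ∑ S ∈ DM K M, ∑ T ∈ DM K M, bad S T =
        ∑ P ∈ pf m, ∑ S ∈ DM K M, ∑ T ∈ DM K M, (if P ∈ S ∨ P ∈ T then a S T else 0) :=
      RS_sum3 (DM K M) (pf m) fun S T P => if P ∈ S ∨ P ∈ T then a S T else 0
    rw [e1]
    calc ∑ P ∈ pf m, ∑ S ∈ DM K M, ∑ T ∈ DM K M, (if P ∈ S ∨ P ∈ T then a S T else 0)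
        ≤ ∑ P ∈ pf m, 4 * (np P)⁻¹ * sa := by
          refine Finset.sum_le_sum fun P hP => ?_
          obtain ⟨h1, h2⟩ := hcop P hP
          exact RS_pairs np Pool.Agent.H96.CV.two_le_np (PM K M) (pf I) (pf J) M h1 h2
      _ = 4 * rc m * sa := by
          rw [← Finset.sum_mul, ← Finset.mul_sum]
          rfl
  have hs0 : 0 ≤ sa := Finset.sum_nonneg fun S hS' => Finset.sum_nonneg fun T hT' =>
    ha0 S hS' T hT'
  have hG3 : GS np (PM K M) M ≤ |C₂| * L := by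
    refine (hC₂ M hM).trans ?_
    have : 1 + Real.log M ≤ L := by rw [hL]; linarith
    calc C₂ * (1 + Real.log M) ≤ |C₂| * (1 + Real.log M) := by
          gcongr
          exact le_abs_self _
      _ ≤ |C₂| * L := by gcongr
  have hG0 : 0 ≤ GS np (PM K M) M := zero_le_one.trans hG1
  have hs1 : sa ≤ 2 ^ ((pf I).card + (pf J).card) * (|C₂| * L) ^ 3 := by
    have h1 : sa ≤ 2 ^ ((pf I).card + (pf J).card) * GS np (PM K M) M ^ 3 := hB2
    refine h1.trans ?_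
    gcongr
  have hsum : ‖∑ S ∈ DM K M, ∑ T ∈ DM K M,
      ((if good S ∧ good T then c S T * Sn m s₁ s₂ (Z S T) else 0) -
        c S T * Sn (K := K) ⊤ s₁ s₂ (Z S T))‖ ≤ 5 * V * rc m * sa := by
    refine (norm_sum_le _ _).trans ?_
    refine (Finset.sum_le_sum fun S hS' => (norm_sum_le _ _).trans
      (Finset.sum_le_sum fun T hT' => hterm S hS' T hT')).trans ?_
    simp only [Finset.sum_add_distrib, ← Finset.mul_sum]
    have h1 : V * ∑ S ∈ DM K M, ∑ T ∈ DM K M, bad S T ≤ V * (4 * rc m * sa) := by gcongr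
    calc _ ≤ V * rc m * sa + V * (4 * rc m * sa) := by
          have := h1
          linarith
      _ = _ := by ring
  rw [hdiff]
  have hwt : wt (I, J) = 2 ^ ((pf I).card + (pf J).card) * w := by
    rw [hw, hN]
    rfl
  have hwt0 : 0 ≤ wt (I, J) := by
    rw [hwt]
    positivity
  calc ‖_‖ ≤ 5 * V * rc m * sa := hsum
    _ ≤ 5 * V * rc m * (2 ^ ((pf I).card + (pf J).card) * (|C₂| * L) ^ 3) := by gcongr
    _ = |C₂| ^ 3 * (10 * Real.exp C₀ * C₁) * W * wt (I, J) * L ^ 4 * rc m := by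
        rw [hwt, hV]
        ring
    _ ≤ (|C₂| ^ 3 * (10 * Real.exp C₀ * C₁) + 1) * W * wt (I, J) * L ^ 4 * rc m := by
        gcongr
        linarith

end Pool.Agent.H37.SM
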