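import Pool.Agent.H20.SM.Targets
import Pool.Agent.H37.CV.All

/-!
# A cofinal family of Galois extensions: row SMq, the second moment
-/

set_option autoImplicit false

open NumberField NumberField.InfinitePlace Complex Filter Topology MeasureTheory

namespace Pool.Agent.H37.SM

open Pool.Agent.H28.RC Pool.Agent.H25.HK Pool.Agent.H37.CV Pool.Agent.H20.SM

namespace SMq

/-- powers of the logarithm against `√x` -/
theorem log_pow_div_sqrt (k : ℕ) (c : ℝ) :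
    Tendsto (fun x : ℝ => c * (Real.log x ^ k / Real.sqrt x)) atTop (𝓝 0) := by
  have h1 := isLittleO_log_rpow_rpow_atTop (s := (1 / 2 : ℝ)) (k : ℝ) (by norm_num)
  have h2 := h1.tendsto_div_nhds_zero
  have h3 : Tendsto (fun x : ℝ => c * (Real.log x ^ (k : ℝ) / x ^ (1 / 2 : ℝ))) atTop
      (𝓝 (c * 0)) := h2.const_mul c
  rw [mul_zero] at h3
  refine h3.congr fun x => ?_
  rw [Real.rpow_natCast, ← Real.sqrt_eq_rpow]

/-- the numerical facts -/
theorem num {n A : ℕ} (B : ℕ) (hn : 1 ≤ n) (hA : 1 ≤ A) {ε₁ : ℝ} (hε0 : 0 < ε₁)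
    (hε1 : ε₁ < 1 / 2) {η D0 C : ℝ} (M₀ : ℝ) (hη : 0 < η) (hD : 1 ≤ D0) (hC : 0 ≤ C) :
    ∃ x₀ : ℝ, Real.exp 1 ≤ x₀ ∧ ∀ x L : ℝ, x₀ ≤ x → n * (Real.log x ^ (A + 1) / 2) ≤ L →
      L ≤ n * (2 * Real.log x ^ (A + 1)) →
      0 < L ∧ M₀ ≤ Real.exp ((1 / 2 - ε₁) * L) ∧ Real.log D0 ≤ L ∧
      (Real.log D0 + L) / ((1 / 2 - ε₁) * L) ≤ 1 / (1 / 2 - ε₁) + η ∧
      C * (1 + (Real.log D0 + L) + (1 / 2 - ε₁) * L) ^ B *
        (2 * n * Real.log x ^ A / Real.sqrt x) ≤ η ∧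
      (∀ c : ℕ, (c : ℝ) ≤ 2 * Real.log x ^ A →
        (2 : ℝ) ^ ((n + 1) * c) * Real.exp (-(ε₁ / 8) * L) ≤ η) ∧
      x ^ (-(1 / 8) : ℝ) ≤ η := by
  have hnr : (1 : ℝ) ≤ n := by exact_mod_cast hn
  have hlD : 0 ≤ Real.log D0 := Real.log_nonneg hD
  set g : ℝ := 1 / 2 - ε₁ with hg
  have hg0 : 0 < g := by linarith
  have hg1 : g ≤ 1 := by linarith
  set L₁ : ℝ := max (max 1 (Real.log (max M₀ 1) / g)) (max (Real.log D0) (Real.log D0 / (g * η)))
    with hL₁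
  set c1 : ℝ := 1 + Real.log D0 + 4 * n with hc1
  have e0 : ∀ᶠ x : ℝ in atTop, 2 * L₁ ≤ Real.log x := Real.tendsto_log_atTop.eventually_ge_atTop _
  have e1 : ∀ᶠ x : ℝ in atTop, 1 ≤ Real.log x := Real.tendsto_log_atTop.eventually_ge_atTop _
  have e2 : ∀ᶠ x : ℝ in atTop, (C * c1 ^ B * (2 * n)) *
      (Real.log x ^ ((A + 1) * B + A) / Real.sqrt x) < η :=
    (log_pow_div_sqrt _ _).eventually (gt_mem_nhds hη)
  have e3 : ∀ᶠ x : ℝ in atTop, 16 * (2 * (n + 1) + 1) / (ε₁ * n) ≤ Real.log x :=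
    Real.tendsto_log_atTop.eventually_ge_atTop _
  have e4 : ∀ᶠ x : ℝ in atTop, -Real.log η ≤ Real.log x :=
    Real.tendsto_log_atTop.eventually_ge_atTop _
  have e5 : ∀ᶠ x : ℝ in atTop, x ^ (-(1 / 8) : ℝ) < η :=
    (tendsto_rpow_neg_atTop (show (0 : ℝ) < 1 / 8 by norm_num)).eventually (gt_mem_nhds hη)
  obtain ⟨x₁, hx₁⟩ := eventually_atTop.1 (e0.and (e1.and (e2.and (e3.and (e4.and e5)))))
  refine ⟨max x₁ (Real.exp 1), le_max_right _ _, fun x L hx hL1 hL2 => ?_⟩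
  obtain ⟨h0, h1, h2, h3, h4, h5⟩ := hx₁ x ((le_max_left _ _).trans hx)
  have hxe : Real.exp 1 ≤ x := (le_max_right _ _).trans hx
  have hx0 : 0 < x := (Real.exp_pos 1).trans_le hxe
  set l : ℝ := Real.log x with hl
  have hlp : l ≤ l ^ (A + 1) := le_self_pow₀ h1 (by omega)
  have hL3 : l / 2 ≤ L := by
    refine le_trans ?_ hL1
    have : 1 * (l / 2) ≤ n * (l ^ (A + 1) / 2) :=
      mul_le_mul hnr (by linarith) (by linarith) (by linarith)
    linarith
  have hL4 : L₁ ≤ L := by linarith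
  have hLa : 1 ≤ L := ((le_max_left _ _).trans (le_max_left _ _)).trans hL4
  have hLb : Real.log (max M₀ 1) / g ≤ L := ((le_max_right _ _).trans (le_max_left _ _)).trans hL4
  have hLc : Real.log D0 ≤ L := ((le_max_left _ _).trans (le_max_right _ _)).trans hL4
  have hLd : Real.log D0 / (g * η) ≤ L := ((le_max_right _ _).trans (le_max_right _ _)).trans hL4
  have hL0 : 0 < L := by linarith
  refine ⟨hL0, ?_, hLc, ?_, ?_, ?_, h5.le⟩
  · have h6 : 0 < max M₀ 1 := lt_of_lt_of_le one_pos (le_max_right _ _)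
    calc M₀ ≤ max M₀ 1 := le_max_left _ _
      _ = Real.exp (Real.log (max M₀ 1)) := (Real.exp_log h6).symm
      _ ≤ Real.exp (g * L) := by
          apply Real.exp_le_exp.2
          rw [div_le_iff₀ hg0] at hLb
          linarith
  · rw [div_le_iff₀ (by positivity) ] at hLd
    rw [div_le_iff₀ (by positivity)]
    have : (1 / g + η) * (g * L) = L + g * η * L := by
      field_simp
    rw [this]
    linarith
  · have h6 : 1 + (Real.log D0 + L) + g * L ≤ c1 * l ^ (A + 1) := by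
      have h7 : (1 : ℝ) ≤ l ^ (A + 1) := one_le_pow₀ h1
      have h8 : g * L ≤ L := by nlinarith
      have h9 : (1 + Real.log D0) * 1 ≤ (1 + Real.log D0) * l ^ (A + 1) :=
        mul_le_mul_of_nonneg_left h7 (by linarith)
      rw [hc1]
      nlinarith
    have h7 : 0 ≤ 1 + (Real.log D0 + L) + g * L := by positivity
    have h8 : (1 + (Real.log D0 + L) + g * L) ^ B ≤ (c1 * l ^ (A + 1)) ^ B :=
      pow_le_pow_left₀ h7 h6 B
    have hl0 : 0 < l := by linarith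
    have h9 : 0 ≤ 2 * (n : ℝ) * l ^ A / Real.sqrt x := by positivity
    calc C * (1 + (Real.log D0 + L) + g * L) ^ B * (2 * n * l ^ A / Real.sqrt x)
        ≤ C * (c1 * l ^ (A + 1)) ^ B * (2 * n * l ^ A / Real.sqrt x) := by gcongr
      _ = (C * c1 ^ B * (2 * n)) * (l ^ ((A + 1) * B + A) / Real.sqrt x) := by
          rw [mul_pow, ← pow_mul, pow_add]
          ring
      _ ≤ η := h2.le
  · intro c hc
    have hlA : l ≤ l ^ A := le_self_pow₀ h1 (by omega)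
    have h6 : (2 : ℝ) ^ ((n + 1) * c) ≤ Real.exp ((n + 1) * c) := by
      have h7 : (2 : ℝ) ≤ Real.exp 1 := by
        have := Real.add_one_le_exp (1 : ℝ)
        linarith
      calc (2 : ℝ) ^ ((n + 1) * c) ≤ Real.exp 1 ^ ((n + 1) * c) :=
            pow_le_pow_left₀ (by norm_num) h7 _
        _ = Real.exp ((n + 1) * c) := by
            rw [← Real.exp_nat_mul]
            push_cast
            ring_nf
    have h7 : ((n : ℝ) + 1) * c - ε₁ / 8 * L ≤ -l := by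
      have h8 : ((n : ℝ) + 1) * c ≤ (n + 1) * (2 * l ^ A) :=
        mul_le_mul_of_nonneg_left hc (by linarith)
      have h9 : ε₁ / 8 * (n * (l ^ (A + 1) / 2)) ≤ ε₁ / 8 * L :=
        mul_le_mul_of_nonneg_left hL1 (by linarith)
      have h10 : 16 * (2 * ((n : ℝ) + 1) + 1) ≤ l * (ε₁ * n) := by
        rw [div_le_iff₀ (by positivity)] at h3
        exact h3
      have h11 : 0 ≤ l ^ A := by positivity
      have h12 : l ^ A * (16 * (2 * ((n : ℝ) + 1) + 1)) ≤ l ^ A * (l * (ε₁ * n)) :=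
        mul_le_mul_of_nonneg_left h10 h11
      have h13 : ε₁ / 8 * (n * (l ^ (A + 1) / 2)) = l ^ A * (l * (ε₁ * n)) / 16 := by
        rw [pow_succ]
        ring
      rw [h13] at h9
      nlinarith
    calc (2 : ℝ) ^ ((n + 1) * c) * Real.exp (-(ε₁ / 8) * L)
        ≤ Real.exp ((n + 1) * c) * Real.exp (-(ε₁ / 8) * L) :=
          mul_le_mul_of_nonneg_right h6 (Real.exp_pos _).le
      _ = Real.exp ((n + 1) * c - ε₁ / 8 * L) := by
          rw [← Real.exp_add]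
          congr 1
          ring
      _ ≤ Real.exp (-l) := Real.exp_le_exp.2 h7
      _ ≤ Real.exp (Real.log η) := Real.exp_le_exp.2 (by linarith)
      _ = η := Real.exp_log hη

theorem qi_ne_top' (K : Type) [Field K] [NumberField K] (q : ℕ) (hq : 2 ≤ q) :
    qi K q ≠ ⊤ := by
  intro h
  rw [qi, Ideal.span_singleton_eq_top] at h
  have h4 : IsUnit ((Ideal.absNorm (Ideal.span {(q : 𝓞 K)})) : ℕ) := by
    rw [Ideal.span_singleton_eq_top.2 h, Ideal.absNorm_top]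
    exact isUnit_one
  have h5 : Ideal.absNorm (Ideal.span {(q : 𝓞 K)}) = q ^ Module.finrank ℚ K := by
    have := Ideal.absNorm_span_natCast (S := 𝓞 K) q
    rw [this, RingOfIntegers.rank]
  rw [h5, Nat.isUnit_iff] at h4
  have h6 : 1 < q ^ Module.finrank ℚ K := Nat.one_lt_pow (by
    have : 0 < Module.finrank ℚ K := Module.finrank_pos
    omega) (by omega)
  omega

theorem qi_ne_bot' (K : Type) [Field K] [NumberField K] (q : ℕ) (hq : 2 ≤ q) :
    qi K q ≠ ⊥ := by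
  rw [qi, Ne, Ideal.span_singleton_eq_bot]
  have : q ≠ 0 := by omega
  exact_mod_cast this

theorem pf_top (K : Type) [Field K] [NumberField K] : pf (⊤ : Ideal (𝓞 K)) = ∅ := by
  have h : {P : PrI K | (⊤ : Ideal (𝓞 K)) ≤ P.1} = ∅ := by
    ext P
    simp only [Set.mem_ofPred_eq, Set.mem_empty_iff_false, iff_false]
    intro h
    exact P.2.1.ne_top (top_le_iff.1 h)
  unfold pf
  rw [dif_pos (by rw [h]; exact Set.finite_empty)]
  ext P
  rw [Set.Finite.mem_toFinset, h]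
  simp

theorem wt_top (K : Type) [Field K] [NumberField K] :
    wt ((⊤ : Ideal (𝓞 K)), (⊤ : Ideal (𝓞 K))) = 1 := by
  have h1 : nm (⊤ : Ideal (𝓞 K)) = 1 := by
    rw [nm, Ideal.absNorm_top, Nat.cast_one]
  rw [wt, pf_top, h1]
  simp

end SMq

open SMq in
open scoped Classical in
/-- row SMq -/
theorem pf_SMq (hIEq : T_IEq) (hNCR : T_NCR) (hPAR : T_PAR) (hSND : T_SND) (hSMOr : T_SMOr)
    (hRS : T_RS) (hDAg : T_DAg) (_hDTr : T_DTr) (hSRq : T_SRq) (hSRd : T_SRd) : T_SMq := by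
  intro F _ _ _ _
  set n : ℕ := Module.finrank ℚ F with hn
  have hn1 : 1 ≤ n := by
    have : 0 < Module.finrank ℚ F := Module.finrank_pos
    omega
  obtain ⟨A₀, hSRq⟩ := hSRq F
  obtain ⟨C0, E, hC0, hE, hNCR⟩ := hNCR F
  obtain ⟨CR, B, hCR, hRS⟩ := hRS F
  refine ⟨max A₀ 1, fun A ε₁ η hA hε0 hε1 hη => ?_⟩
  have hA0 : A₀ ≤ A := (le_max_left _ _).trans hA
  have hA1 : 1 ≤ A := (le_max_right _ _).trans hA
  set κ : ℝ := η / 16 with hκ
  have hκ0 : 0 < κ := by positivity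
  have hg0 : 0 < 1 / 2 - ε₁ := by linarith
  obtain ⟨M₀, hDA⟩ := hDAg F (4 * ε₁) (2 / (1 / 2 - ε₁)) κ (by linarith) (by positivity) hκ0
  obtain ⟨x₁, hx1⟩ := hSRq A ε₁ κ hA0 hε0 hε1 hκ0
  obtain ⟨x₂, hx2⟩ := hSRd F A ε₁ hA1 hε0 hε1
  obtain ⟨x₃, hx3⟩ := hNCR A
  obtain ⟨x₄, hx4⟩ := hPAR F A
  obtain ⟨x₅, hx5⟩ := hSND n A
  have hD1 : (1 : ℝ) ≤ |(discr F : ℝ)| := by
    have h1 : (1 : ℤ) ≤ |discr F| := Int.one_le_abs (discr_ne_zero F)
    exact_mod_cast h1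
  obtain ⟨x₆, hx6e, hx6⟩ := num (n := n) (A := A) B hn1 hA1 hε0 hε1 M₀ hκ0 hD1 hCR.le
  refine ⟨max (max (max x₁ x₂) (max x₃ x₄)) (max x₅ x₆), fun x q hx hSp => ?_⟩
  have hxa : x₁ ≤ x := (((le_max_left _ _).trans (le_max_left _ _)).trans (le_max_left _ _)).trans hx
  have hxb : x₂ ≤ x := (((le_max_right _ _).trans (le_max_left _ _)).trans (le_max_left _ _)).trans hx
  have hxc : x₃ ≤ x := (((le_max_left _ _).trans (le_max_right _ _)).trans (le_max_left _ _)).trans hx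
  have hxd : x₄ ≤ x := (((le_max_right _ _).trans (le_max_right _ _)).trans (le_max_left _ _)).trans hx
  have hxe : x₅ ≤ x := ((le_max_left _ _).trans (le_max_right _ _)).trans hx
  have hxf : x₆ ≤ x := ((le_max_right _ _).trans (le_max_right _ _)).trans hx
  have hxexp : Real.exp 1 ≤ x := hx6e.trans hxf
  have hx0 : 0 < x := (Real.exp_pos 1).trans_le hxexp
  have hlx : 1 ≤ Real.log x := by
    rw [Real.le_log_iff_exp_le hx0]
    exact hxexp
  -- the parameters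
  obtain ⟨hq1, hq2, hrc, hlog⟩ := hx4 x q hxd hSp
  have hlogq : 0 < Real.log q := by
    have : 0 < Real.log x ^ (A + 1) / 2 := by positivity
    linarith
  have hq2' : 2 ≤ q := by
    by_contra hcon
    have h1 : q = 0 ∨ q = 1 := by omega
    rcases h1 with h1 | h1 <;> rw [h1] at hlogq <;> simp at hlogq
  have hbot := qi_ne_bot' F q hq2'
  have htopq := qi_ne_top' F q hq2'
  set m : Ideal (𝓞 F) := qi F q with hm
  have hnm0 : 0 < nm m := by
    rw [nm]
    exact_mod_cast Nat.pos_of_ne_zero (by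
      rw [Ne, Ideal.absNorm_eq_zero_iff]; exact hbot)
  set L : ℝ := Real.log (nm m) with hL
  rw [← hn] at hlog hrc
  have hnr : (1 : ℝ) ≤ n := by exact_mod_cast hn1
  obtain ⟨hL0, hM0, hLD, hlogs, hrs, hcard, hx8⟩ := hx6 x L hxf
    (by rw [hlog]; exact mul_le_mul_of_nonneg_left hq1 (by linarith))
    (by rw [hlog]; exact mul_le_mul_of_nonneg_left hq2 (by linarith))
  have hnmL : nm m = Real.exp L := (Real.exp_log hnm0).symm
  set M : ℝ := Mo F ε₁ q with hM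
  set Q : ℝ := cnd F m with hQ
  have hME : M = Real.exp ((1 / 2 - ε₁) * L) := by
    rw [hM, Mo, ← hm, Real.rpow_def_of_pos hnm0, ← hL]
    congr 1
    ring
  have hM1 : 1 ≤ M := by
    rw [hME]
    exact Real.one_le_exp (by positivity)
  have hMpos : 0 < M := by linarith
  have hlogM : Real.log M = (1 / 2 - ε₁) * L := by rw [hME, Real.log_exp]
  have hD0 : (0 : ℝ) < |(discr F : ℝ)| := by linarith
  have hQE : Q = |(discr F : ℝ)| * nm m := rfl
  have hlogQ : Real.log Q = Real.log |(discr F : ℝ)| + L := by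
    rw [hQE, Real.log_mul hD0.ne' hnm0.ne']
  have hQ0 : 0 < Q := by rw [hQE]; positivity
  have hnm1 : 1 ≤ nm m := by
    rw [hnmL]
    exact Real.one_le_exp hL0.le
  have hnQ : nm m ≤ Q := by
    rw [hQE]
    exact le_mul_of_one_le_left hnm0.le hD1
  have hQ1 : 1 ≤ Q := hnm1.trans hnQ
  have hMQ : M ^ (2 + 4 * ε₁) ≤ Q := by
    rw [Real.rpow_def_of_pos hMpos, hlogM]
    calc Real.exp ((1 / 2 - ε₁) * L * (2 + 4 * ε₁)) ≤ Real.exp L := by
          apply Real.exp_le_exp.2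
          have h1 : (1 / 2 - ε₁) * L * (2 + 4 * ε₁) = L - 4 * (L * (ε₁ * ε₁)) := by ring
          have h2 := mul_pos hL0 (mul_pos hε0 hε0)
          linarith
      _ = nm m := hnmL.symm
      _ ≤ Q := hnQ
  have hQM : Q ≤ M ^ (2 / (1 / 2 - ε₁)) := by
    rw [Real.rpow_def_of_pos hMpos, hlogM]
    have h1 : (1 / 2 - ε₁) * L * (2 / (1 / 2 - ε₁)) = L + L := by
      have h2 : (1 / 2 - ε₁) * (1 / 2 - ε₁)⁻¹ = 1 := mul_inv_cancel₀ hg0.ne'
      calc (1 / 2 - ε₁) * L * (2 / (1 / 2 - ε₁)) = 2 * L * ((1 / 2 - ε₁) * (1 / 2 - ε₁)⁻¹) := by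
            rw [div_eq_mul_inv]
            ring
        _ = L + L := by rw [h2]; ring
    rw [h1, Real.exp_add, ← hnmL, hQE]
    refine mul_le_mul_of_nonneg_right ?_ hnm0.le
    rw [hnmL, ← Real.log_le_iff_le_exp hD0]
    exact hLD
  have hM0' : M₀ ≤ M := by rw [hME]; exact hM0
  -- characters
  obtain ⟨hfin, T, σ, hT1, hσ1, hT2, hT3, hsum⟩ := hIEq F q hSp.sq
  rw [← hm] at hfin hT1 hσ1 hT2 hsum
  rw [← hn] at hT3
  set N : ℝ := (nc m m : ℝ) with hN
  obtain ⟨hNpos', -, -⟩ := hx3 x q hxc hSp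
  have hNpos : 0 < N := by
    rw [hN, hm]
    exact_mod_cast hNpos'
  set D : Ideal (𝓞 F) × Ideal (𝓞 F) → ℂ := fun p => Dr m Q M p.1 p.2 with hD
  -- the opened second moment for each divisor
  have hopen : ∀ d : Ideal (𝓞 F), m ≤ d →
      ∑ᶠ ψ ∈ Ch m d, 2 * (A2 Q ψ * ((‖mol M ψ‖ ^ 2 : ℝ) : ℂ)) =
        2 * (nc m d * ∑' p : CP m d, D p.1) := by
    intro d hd
    rw [← mul_finsum_mem, (hSMOr F m d Q M hbot hd hQ0 hM1).2]
  have hnorm : ∀ d : Ideal (𝓞 F), m ≤ d → Summable (fun p : CP m d => ‖D p.1‖) := fun d hd =>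
    (hSMOr F m d Q M hbot hd hQ0 hM1).1
  -- the proper divisors
  have hprop : ∀ d : Ideal (𝓞 F), m ≤ d → d ≠ m →
      (nc m d : ℝ) * ‖∑' p : CP m d, D p.1‖ ≤
        N * (x ^ (1 / 8 : ℝ) * pd q d ^ (-(3 / 4) : ℝ) + nm m ^ (-(ε₁ / 8))) := by
    intro d hd hdq
    have h3 : (nc m d : ℝ) * ∑' p : CP m d, ‖D p.1‖ ≤
        N * (x ^ (1 / 8 : ℝ) * pd q d ^ (-(3 / 4) : ℝ) + nm m ^ (-(ε₁ / 8))) := by
      rw [← tsum_mul_left]
      refine (tsum_norm_le' (CP m d) (fun p => (nc m d : ℝ) * ‖D p‖)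
        (fun p => by positivity) _ ?_).2
      intro X hX
      rw [← Finset.mul_sum]
      exact hx2 x q hxb hSp d hd hdq X hX
    refine le_trans ?_ h3
    refine mul_le_mul_of_nonneg_left ?_ (Nat.cast_nonneg _)
    exact norm_tsum_le_tsum_norm (hnorm d hd)
  -- the main term
  have htop : ((⊤, ⊤) : Ideal (𝓞 F) × Ideal (𝓞 F)) ∈ CP m m := by
    refine ⟨top_ne_bot, top_ne_bot, top_sup_eq _, top_sup_eq _, top_sup_eq _, 1, 1, one_ne_zero,
      one_ne_zero, ?_, ?_, ?_, rfl⟩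
    · rw [Ideal.span_singleton_one, top_sup_eq]
    · rw [Ideal.span_singleton_one, top_sup_eq]
    · rw [sub_self]; exact Ideal.zero_mem _
  have hmain : ‖(∑' p : CP m m, D p.1) - D (⊤, ⊤)‖ ≤ κ := by
    have h2 := (hnorm m le_rfl).of_norm
    have h3 := h2.tsum_eq_add_tsum_ite ⟨(⊤, ⊤), htop⟩
    rw [h3, add_sub_cancel_left]
    set G : Ideal (𝓞 F) × Ideal (𝓞 F) → ℝ := fun p => if p = (⊤, ⊤) then 0 else ‖D p‖ with hG
    have hG0 : ∀ p, 0 ≤ G p := by
      intro p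
      rw [hG]
      dsimp only
      split_ifs
      · exact le_rfl
      · exact norm_nonneg _
    have h4 : ∀ p : CP m m,
        ‖(if p = ⟨(⊤, ⊤), htop⟩ then 0 else D p.1 : ℂ)‖ = G p.1 := by
      intro p
      rw [hG]
      dsimp only
      by_cases h5 : p.1 = (⊤, ⊤)
      · rw [if_pos h5, if_pos (Subtype.ext h5), norm_zero]
      · rw [if_neg h5, if_neg (fun h6 => h5 (congrArg Subtype.val h6))]
    have h5 := tsum_norm_le' (CP m m) G hG0 κ (by
      intro X hX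
      have h6 : ∑ p ∈ X, G p = ∑ p ∈ X.filter (fun p => p ≠ (⊤, ⊤)), ‖D p‖ := by
        rw [Finset.sum_filter]
        refine Finset.sum_congr rfl fun p _ => ?_
        rw [hG]
        dsimp only
        by_cases h7 : p = (⊤, ⊤)
        · rw [if_pos h7, if_neg (by simpa using h7)]
        · rw [if_neg h7, if_pos h7]
      rw [h6]
      exact hx1 x q hxa hSp (X.filter (fun p => p ≠ (⊤, ⊤))) (by
        intro p hp
        rw [Finset.mem_filter] at hp
        exact ⟨hX p hp.1, hp.2⟩))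
    calc ‖∑' p : CP m m, (if p = ⟨(⊤, ⊤), htop⟩ then 0 else D p.1 : ℂ)‖
        ≤ ∑' p : CP m m, ‖(if p = ⟨(⊤, ⊤), htop⟩ then 0 else D p.1 : ℂ)‖ := by
          refine norm_tsum_le_tsum_norm ?_
          simp only [h4]
          exact h5.1
      _ = ∑' p : CP m m, G p.1 := tsum_congr h4
      _ ≤ κ := h5.2
  have hdiag : (2 * D (⊤, ⊤)).re ≤ 1 + 1 / (1 / 2 - ε₁) + 4 * κ := by
    have h1 := hRS m Q M ⊤ ⊤ hbot hQ1 hM1 top_ne_bot top_ne_bot (top_sup_eq _) (top_sup_eq _)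
      (top_sup_eq _)
    rw [wt_top, mul_one, hlogQ, hlogM] at h1
    have h2 : CR * (1 + (Real.log |(discr F : ℝ)| + L) + (1 / 2 - ε₁) * L) ^ B * rc m ≤ κ := by
      refine le_trans ?_ hrs
      refine mul_le_mul_of_nonneg_left hrc ?_
      have : 0 ≤ Real.log |(discr F : ℝ)| := Real.log_nonneg hD1
      positivity
    have h3 := hDA M Q hM0' hMQ hQM
    rw [hlogQ, hlogM] at h3
    have h4 : (2 * D (⊤, ⊤)).re = (2 * Dd (K := F) ⊤ Q M ⊤ ⊤).re +
        (2 * (Dr m Q M ⊤ ⊤ - Dd (K := F) ⊤ Q M ⊤ ⊤)).re := by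
      rw [← Complex.add_re]
      congr 1
      rw [hD]
      ring
    have h5 : (2 * (Dr m Q M ⊤ ⊤ - Dd (K := F) ⊤ Q M ⊤ ⊤)).re ≤ 2 * κ := by
      refine (Complex.re_le_norm _).trans ?_
      rw [norm_mul, Complex.norm_ofNat]
      linarith [h1.trans h2]
    rw [h4]
    linarith
  -- the sum over the primitive characters
  have hQχ : ∀ χ ∈ Pr F m, ((‖cval χ‖ ^ 2 * ‖mol M χ.ψ‖ ^ 2 : ℝ) : ℂ) =
      2 * (A2 Q χ.ψ * ((‖mol M χ.ψ‖ ^ 2 : ℝ) : ℂ)) := by
    intro χ hχ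
    have hχ' : χ.f = m := hχ
    have hf : χ.f ≠ ⊤ := by rw [hχ']; exact htopq
    obtain ⟨Z, Λ, ε', hZ, -⟩ := a_EN F χ hf
    have h2 := a_AF2 F χ hf Z hZ
    rw [Complex.ofReal_mul, cval_eq χ Z hZ, h2, hχ', hQ, mul_assoc]
  have hall : ((∑ᶠ χ ∈ Pr F m, ‖cval χ‖ ^ 2 * ‖mol M χ.ψ‖ ^ 2 : ℝ) : ℂ) =
      ∑ d ∈ T, (σ d : ℂ) * (2 * (nc m d * ∑' p : CP m d, D p.1)) := by
    rw [finsum_mem_eq_finite_toFinset_sum _ hfin, Complex.ofReal_sum]
    have h2 := hsum (fun ψ => 2 * (A2 Q ψ * ((‖mol M ψ‖ ^ 2 : ℝ) : ℂ)))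
    rw [finsum_mem_eq_finite_toFinset_sum _ hfin] at h2
    rw [Finset.sum_congr rfl fun χ hχ => hQχ χ (by simpa using hχ), h2]
    exact Finset.sum_congr rfl fun d hd => by rw [hopen d (hT2 d hd).1]
  have hre : (∑ᶠ χ ∈ Pr F m, ‖cval χ‖ ^ 2 * ‖mol M χ.ψ‖ ^ 2) =
      (∑ d ∈ T, (σ d : ℂ) * (2 * (nc m d * ∑' p : CP m d, D p.1)) : ℂ).re := by
    rw [← hall, Complex.ofReal_re]
  rw [hre, ← Finset.add_sum_erase T _ hT1, Complex.add_re, hσ1, Int.cast_one, one_mul]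
  have hAA : (2 * (N * ∑' p : CP m m, D p.1) : ℂ).re ≤
      (1 + 1 / (1 / 2 - ε₁) + 6 * κ) * N := by
    have h2 : (2 * (N * ∑' p : CP m m, D p.1) : ℂ) =
        (N : ℂ) * (2 * D (⊤, ⊤)) + (N : ℂ) * (2 * ((∑' p : CP m m, D p.1) -
          D (⊤, ⊤))) := by ring
    rw [h2, Complex.add_re, Complex.re_ofReal_mul, Complex.re_ofReal_mul]
    have h4 : (2 * ((∑' p : CP m m, D p.1) - D (⊤, ⊤))).re ≤ 2 * κ := by
      refine (Complex.re_le_norm _).trans ?_
      rw [norm_mul, Complex.norm_ofNat]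
      linarith
    have h5 := mul_le_mul_of_nonneg_left hdiag hNpos.le
    have h6 := mul_le_mul_of_nonneg_left h4 hNpos.le
    have h7 : (1 + 1 / (1 / 2 - ε₁) + 6 * κ) * N =
        N * (1 + 1 / (1 / 2 - ε₁) + 4 * κ) + N * (2 * κ) := by ring
    rw [h7]
    exact add_le_add h5 h6
  -- the sum over the proper divisors
  have hmem : ∀ d ∈ T.erase m, Pd q d ∈ q.primeFactors.powerset.erase ∅ := by
    intro d hd
    rw [Finset.mem_erase] at hd
    rw [Finset.mem_erase, Finset.mem_powerset]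
    refine ⟨((hT2 d hd.2).2.2 hd.1).ne_empty, ?_⟩
    unfold Pd
    exact Finset.filter_subset _ _
  have hmem' : ∀ d ∈ T, Pd q d ∈ q.primeFactors.powerset := by
    intro d hd
    rw [Finset.mem_powerset]
    unfold Pd
    exact Finset.filter_subset _ _
  have hS1 : ∑ d ∈ T.erase m, pd q d ^ (-(3 / 4) : ℝ) ≤ x ^ (-(1 / 4) : ℝ) := by
    rw [← Finset.sum_fiberwise_of_maps_to hmem]
    refine le_trans (Finset.sum_le_sum fun R hR => ?_) (hx5 x q.primeFactors hxe hSp.low hSp.hi)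
    have h1 : ∀ d ∈ (T.erase m).filter (fun d => Pd q d = R),
        pd q d ^ (-(3 / 4) : ℝ) = (∏ p ∈ R, (p : ℝ)) ^ (-(3 / 4) : ℝ) := by
      intro d hd
      rw [Finset.mem_filter] at hd
      rw [pd, hd.2]
    rw [Finset.sum_congr rfl h1, Finset.sum_const, nsmul_eq_mul]
    refine mul_le_mul_of_nonneg_right ?_ (Real.rpow_nonneg (Finset.prod_nonneg fun p _ =>
      Nat.cast_nonneg _) _)
    have h2 : ((T.erase m).filter (fun d => Pd q d = R)).card ≤ 2 ^ (n * R.card) :=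
      (Finset.card_le_card (Finset.filter_subset_filter _ (Finset.erase_subset _ _))).trans
        (hT3 R)
    exact_mod_cast h2
  have hS2 : ((T.erase m).card : ℝ) * nm m ^ (-(ε₁ / 8)) ≤ κ := by
    have h1 : T.card ≤ 2 ^ ((n + 1) * q.primeFactors.card) := by
      calc T.card = ∑ R ∈ q.primeFactors.powerset, (T.filter fun d => Pd q d = R).card :=
            Finset.card_eq_sum_card_fiberwise hmem'
        _ ≤ ∑ R ∈ q.primeFactors.powerset, 2 ^ (n * q.primeFactors.card) := by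
            refine Finset.sum_le_sum fun R hR => (hT3 R).trans ?_
            refine Nat.pow_le_pow_right (by norm_num) (Nat.mul_le_mul_left _ ?_)
            exact Finset.card_le_card (Finset.mem_powerset.1 hR)
        _ = 2 ^ ((n + 1) * q.primeFactors.card) := by
            rw [Finset.sum_const, Finset.card_powerset, smul_eq_mul, ← pow_add]
            congr 1
            ring
    have h2 : nm m ^ (-(ε₁ / 8)) = Real.exp (-(ε₁ / 8) * L) := by
      rw [Real.rpow_def_of_pos hnm0, ← hL]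
      congr 1
      ring
    rw [h2]
    refine le_trans ?_ (hcard q.primeFactors.card hSp.hi)
    refine mul_le_mul_of_nonneg_right ?_ (Real.exp_pos _).le
    have h3 : (T.erase m).card ≤ 2 ^ ((n + 1) * q.primeFactors.card) :=
      (Finset.card_le_card (Finset.erase_subset _ _)).trans h1
    exact_mod_cast h3
  have hBB : (∑ d ∈ T.erase m, (σ d : ℂ) * (2 * (nc m d * ∑' p : CP m d, D p.1))).re ≤
      4 * κ * N := by
    refine (Complex.re_le_norm _).trans ?_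
    have h2 : ∀ d ∈ T.erase m, ‖(σ d : ℂ) * (2 * (nc m d * ∑' p : CP m d, D p.1))‖ ≤
        2 * N * (x ^ (1 / 8 : ℝ) * pd q d ^ (-(3 / 4) : ℝ) + nm m ^ (-(ε₁ / 8))) := by
      intro d hd
      rw [Finset.mem_erase] at hd
      obtain ⟨hd1, hd2, hd3⟩ := hT2 d hd.2
      rw [norm_mul, norm_mul, norm_mul, Complex.norm_ofNat, Complex.norm_natCast]
      have h3 : ‖(σ d : ℂ)‖ ≤ 1 := by
        rw [Complex.norm_intCast]
        exact_mod_cast hd2
      have h4 := hprop d hd1 hd.1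
      calc ‖(σ d : ℂ)‖ * (2 * ((nc m d : ℝ) * ‖∑' p : CP m d, D p.1‖))
          ≤ 1 * (2 * ((nc m d : ℝ) * ‖∑' p : CP m d, D p.1‖)) :=
            mul_le_mul_of_nonneg_right h3 (by positivity)
        _ ≤ _ := by linarith
    refine (norm_sum_le _ _).trans ((Finset.sum_le_sum h2).trans ?_)
    rw [← Finset.mul_sum, Finset.sum_add_distrib, ← Finset.mul_sum, Finset.sum_const,
      nsmul_eq_mul]
    have h5 : x ^ (1 / 8 : ℝ) * ∑ d ∈ T.erase m, pd q d ^ (-(3 / 4) : ℝ) ≤ κ := by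
      calc x ^ (1 / 8 : ℝ) * ∑ d ∈ T.erase m, pd q d ^ (-(3 / 4) : ℝ)
          ≤ x ^ (1 / 8 : ℝ) * x ^ (-(1 / 4) : ℝ) :=
            mul_le_mul_of_nonneg_left hS1 (by positivity)
        _ = x ^ (-(1 / 8) : ℝ) := by
            rw [← Real.rpow_add hx0]
            congr 1
            norm_num
        _ ≤ κ := hx8
    have h6 : 2 * N * (x ^ (1 / 8 : ℝ) * ∑ d ∈ T.erase m, pd q d ^ (-(3 / 4) : ℝ) +
        ((T.erase m).card : ℝ) * nm m ^ (-(ε₁ / 8))) ≤ 2 * N * (κ + κ) :=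
      mul_le_mul_of_nonneg_left (add_le_add h5 hS2) (by positivity)
    refine h6.trans (le_of_eq ?_)
    ring
  have h7 : 10 * κ * N ≤ η * N := by
    refine mul_le_mul_of_nonneg_right ?_ hNpos.le
    rw [hκ]
    linarith
  have h8 := add_le_add hAA hBB
  refine h8.trans ?_
  have h9 : (1 + 1 / (1 / 2 - ε₁) + 6 * κ) * N + 4 * κ * N =
      (1 + 1 / (1 / 2 - ε₁)) * N + 10 * κ * N := by ring
  have h10 : (1 + 1 / (1 / 2 - ε₁) + η) * N = (1 + 1 / (1 / 2 - ε₁)) * N + η * N := by ring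
  rw [h9, h10]
  exact add_le_add_right h7 _

end Pool.Agent.H37.SM
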